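import Mathlib
import Pool.Agent.H530R2.Hit
import Pool.Agent.TH670.BR.Fac

/-!
# Explicit hitting sets for the closure of sums of constant-width ROABPs

Polynomial-size explicit hitting sets for the closure (the border class) of the class of all
factors of products of sums of constantly many constant-width read-once oblivious algebraic
branching programs, each in its own unknown variable order: the polynomials hit are limits of
sequences of such factors, and factors of products of such limits.

The proof works over the valuation ring of the bounded elements of an ultrapower of `ℂ`. Along the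
order of one of the programs, the polynomial is written, up to an infinitesimal error, as a
combination of partial products which are linearly independent after reduction; the basis of each
layer is chosen among the generators of a finitely generated module over the valuation ring, so
that the combinations are again given by a program of the same width over the residue field. The
sums of the other programs are treated by induction, and factors by Gauss' lemma.
-/

set_option autoImplicit false

namespace Pool.Agent.Results.MP_c2aa42_lc.LimitsOfROABPs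

open MvPolynomial

/-- `f` is computed by a read-once oblivious algebraic branching program (ROABP) of width `w`
that reads the variables in the order `σ 0, σ 1, …, σ (n-1)`: `f` is the bilinear form
`u ⬝ (M 0)(x_{σ 0}) ⬝ (M 1)(x_{σ 1}) ⋯ (M (n-1))(x_{σ (n-1)}) ⬝ v`, where `M k` is a `w × w` matrix
of univariate polynomials of arbitrary degree and `u`, `v` are constant vectors. -/
def IsROABP {n : ℕ} (w : ℕ) (σ : Equiv.Perm (Fin n)) (f : MvPolynomial (Fin n) ℂ) : Prop :=
  ∃ (M : Fin n → Matrix (Fin w) (Fin w) (Polynomial ℂ)) (u v : Fin w → ℂ),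
    f = ∑ a, ∑ b, C (u a) *
      (List.ofFn fun k : Fin n =>
        (M k).map (Polynomial.aeval (X (σ k) : MvPolynomial (Fin n) ℂ))).prod a b * C (v b)

/-- `f` is a sum of `c` polynomials, each computed by a ROABP of width `w` in its own order. -/
def IsSumROABP {n : ℕ} (c w : ℕ) (f : MvPolynomial (Fin n) ℂ) : Prop :=
  ∃ g : Fin c → MvPolynomial (Fin n) ℂ, (∀ i, ∃ σ : Equiv.Perm (Fin n), IsROABP w σ (g i)) ∧
    f = ∑ i, g i

/-- All coefficients of the polynomials `F s` converge to the coefficients of `f`. -/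
def Converges {n : ℕ} (F : ℕ → MvPolynomial (Fin n) ℂ) (f : MvPolynomial (Fin n) ℂ) : Prop :=
  ∀ m : Fin n →₀ ℕ, Filter.Tendsto (fun s => coeff m (F s)) Filter.atTop (nhds (coeff m f))

/-- `P` is a limit of sums of `c` ROABPs of width `w`, or a limit of polynomials of bounded degree
which are factors of nonzero products of any numbers of sums of `c` ROABPs of width `w`, the sums
having bounded degree. -/
def IsLimit {n : ℕ} (c w : ℕ) (P : MvPolynomial (Fin n) ℂ) : Prop :=
  (∃ F : ℕ → MvPolynomial (Fin n) ℂ, Converges F P ∧ ∀ s, IsSumROABP c w (F s)) ∨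
  ∃ (F : ℕ → MvPolynomial (Fin n) ℂ) (D E : ℕ), Converges F P ∧ ∀ s, (F s).totalDegree ≤ D ∧
    ∃ (r : ℕ) (g : Fin r → MvPolynomial (Fin n) ℂ),
      (∀ j, IsSumROABP c w (g j) ∧ (g j).totalDegree ≤ E) ∧ (∏ j, g j) ≠ 0 ∧ F s ∣ ∏ j, g j

/-- `cost w 0 = 0` and `cost w (s + 1) = cost w s + w (w - s) + 2`; in particular
`cost w w = w²(w + 1)/2 + 2w`. -/
def cost (w : ℕ) : ℕ → ℕ
  | 0 => 0
  | s + 1 => cost w s + w * (w - s) + 2

/-- The number of seed pairs used for sums of `c` programs of width `w`:
`seeds 0 w = 0` and `seeds (c + 1) w = cost w w + 1 + seeds c (w (w + 1))`. -/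
def seeds : ℕ → ℕ → ℕ
  | 0, _ => 0
  | c + 1, w => cost w w + 1 + seeds c (w * (w + 1))

/-- The point with seeds `y, z ∈ ℕ^m`: its `i`-th coordinate is
`∑_l y_l ∏_{k ≠ i} (z_l - k)` (the Shpilka–Volkovich generator with nodes `0, …, n-1`). -/
def point (n m : ℕ) (y z : Fin m → ℕ) : Fin n → ℤ :=
  fun i => ∑ l : Fin m, (y l : ℤ) * ∏ k ∈ Finset.univ.erase i, ((z l : ℤ) - (k.val : ℤ))

/-- The explicit set of all points with seeds `y ∈ {0,…,D}^m`, `z ∈ {0,…,nD}^m`. -/
def points (n m D : ℕ) : Finset (Fin n → ℤ) :=
  ((Fintype.piFinset fun _ : Fin m => Finset.range (D + 1)) ×ˢ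
    (Fintype.piFinset fun _ : Fin m => Finset.range (n * D + 1))).image
    fun yz => point n m yz.1 yz.2

theorem IsSumROABP.isSum {n c w : ℕ} {f : MvPolynomial (Fin n) ℂ} (h : IsSumROABP c w f) :
    Pool.Agent.TH670.BR.IsSum c w f := by
  obtain ⟨g, hg, rfl⟩ := h
  choose σ M u v h using hg
  exact ⟨σ, M, u, v, Finset.sum_congr rfl fun i _ => h i⟩

theorem cost_eq (w s : ℕ) : cost w s = Pool.Agent.H530R2.lcost w s := by
  induction s with
  | zero => rfl
  | succ s ih => simp only [cost, Pool.Agent.H530R2.lcost, ih]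

theorem seeds_eq (c w : ℕ) : seeds c w = Pool.Agent.H530R2.seeds2 c w := by
  induction c generalizing w with
  | zero => rfl
  | succ c ih => simp only [seeds, Pool.Agent.H530R2.seeds2, ih, cost_eq]

theorem IsLimit.notMem {n c w : ℕ} {P : MvPolynomial (Fin n) ℂ} (h : IsLimit c w P) (h0 : P ≠ 0) :
    P ∉ Pool.Agent.H530R2.genI (fun i : Fin n => ((i.val : ℕ) : ℂ)) (seeds c w) := by
  rw [seeds_eq]
  rcases h with ⟨F, hF, hs⟩ | ⟨F, D, E, hF, hs⟩
  · exact fun h1 => h0 (Pool.Agent.TH670.BR.lim_eq_zero F P (fun s => (hs s).isSum) hF _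
      (Pool.Agent.H530R2.nodes_injective n) h1)
  · refine Pool.Agent.TH670.BR.lim_factor' (E := E) F (fun s => (hs s).1) (fun s => ?_) P hF h0 _
      (Pool.Agent.H530R2.nodes_injective n)
    obtain ⟨r, g, h1, h2, h3⟩ := (hs s).2
    exact ⟨r, g, fun j => (h1 j).1.isSum, fun j => (h1 j).2, h2, h3⟩

/-- **Hitting sets for the closure of sums of ROABPs.** For all `c, w, n, D` the explicit set
`points n (seeds c w) D ⊆ ℤ^n` has at most `((D+1)(nD+1))^(seeds c w)` elements, with coordinates
of polynomial bit length, and hits every polynomial `f` of total degree at most `D` in `n`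
variables which divides a nonzero product of limits of sums of `c` ROABPs of width `w` in arbitrary
orders, or of limits of factors of products of such sums. -/
theorem result (c w n D : ℕ) :
    (points n (seeds c w) D).card ≤ ((D + 1) * (n * D + 1)) ^ seeds c w ∧
    (∀ p ∈ points n (seeds c w) D, ∀ i,
      |p i| ≤ ((seeds c w * D * (n * D + n) ^ (n - 1) : ℕ) : ℤ)) ∧
    ∀ (f : MvPolynomial (Fin n) ℂ) (r : ℕ) (P : Fin r → MvPolynomial (Fin n) ℂ),
      (∀ j, IsLimit c w (P j)) → (∏ j, P j) ≠ 0 → f ∣ ∏ j, P j → f.totalDegree ≤ D →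
      ∃ p ∈ points n (seeds c w) D, MvPolynomial.eval (fun i => (p i : ℂ)) f ≠ 0 := by
  refine ⟨Pool.Agent.H530R2.hitSet_card n _ D,
    fun p hp i => Pool.Agent.H530R2.hitSet_bound n _ D p hp i, ?_⟩
  intro f r P hP h0 hdvd hD
  refine Pool.Agent.H530R2.exists_hit n (seeds c w) D f hD ?_
  have hprime := Pool.Agent.H530R2.genI_prime (fun i : Fin n => ((i.val : ℕ) : ℂ)) (seeds c w)
  intro hmem
  have hmem2 : (∏ j, P j) ∈ Pool.Agent.H530R2.genI (fun i : Fin n => ((i.val : ℕ) : ℂ))
      (seeds c w) := Ideal.mem_of_dvd _ hdvd hmem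
  obtain ⟨j, _, hj⟩ := (Ideal.IsPrime.prod_mem_iff (s := Finset.univ)).1 hmem2
  exact (hP j).notMem (Finset.prod_ne_zero_iff.1 h0 j (Finset.mem_univ j)) hj

end Pool.Agent.Results.MP_c2aa42_lc.LimitsOfROABPs
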