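import Mathlib
import Pool.Agent.TH710.NP.Lift
import Pool.Agent.Results.MP_c2aa42_lc.SumsOfSparseFormulas

/-!
# Hitting sets for circuits of unbounded depth whose sum gates add high powers

The circuits have levels. On the lowest level there are polynomials of a class `S`. A gate of a
higher level with parameters `(k, q, e)` computes `∑_{i < k} c_i (∏_{j < q} g_ij) ^ e` from
polynomials `g_ij` of the level below, with arbitrary constants `c_i`. For `q = 1` the condition on
the exponents is `e ≥ (2 k - 1) ^ 2` on every level, and there is no other restriction: the depth,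
the number of gates, the fan-in `k` and the number of times a gate is used are unbounded. In general
`k` is replaced by `k ^ p`, where `p` is the product of the product fan-ins `q` of the levels above.

* Lifting: if a substitution (a generator) kills no nonzero combination of two members of the class
  `S`, then it kills no nonzero polynomial that is computed by such a circuit of any depth (`q = 1`).
* Leaves with at most `s` monomials, of any degree: an explicit set of `2 s ^ P d + 1` points hits
  all nonzero polynomials of degree at most `d` which divide a product of nonzero polynomials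
  computed by such circuits, `P` the product of all product fan-ins (`P = 1` if `q = 1`).
* Leaves which are products of any number of polynomials in `w` formulas with sparse leaves (or with
  linear programs of width `w` at the leaves), every variable being read at most `w` times by each
  formula (the class of `MP_c2aa42_lc.SumsOfSparseFormulas`): an explicit hitting set of polynomial
  size.

The proof: the `e`-th powers of `m` pairwise non-proportional polynomials are linearly independent
if `e ≥ (m - 1) ^ 2` (Newman and Slater, Mason; here for polynomials in several variables by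
Kronecker's substitution), so a substitution which does not make non-proportional members of one
level proportional has the same property for the next level.
-/

set_option autoImplicit false

namespace Pool.Agent.Results.MP_c2aa42_lc.NestedPowers

open MvPolynomial
open Pool.Agent.H626R2.Loc (evG base)
open Pool.Agent.Results.MP_c2aa42_lc.SumsOfSparseFormulas (Composite Sums power point points)

variable {n : ℕ}

/-- The polynomials computed by the gates of the last level of a circuit with the levels `l`: the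
list `l` contains the parameters `(k, q, e)` of the levels, the output level first, and `S` is the
class of the leaves. -/
def Level (S : Set (MvPolynomial (Fin n) ℂ)) : List (ℕ × ℕ × ℕ) → Set (MvPolynomial (Fin n) ℂ)
  | [] => S
  | (k, q, e) :: l => {f | ∃ (c : Fin k → ℂ) (g : Fin k → Fin q → MvPolynomial (Fin n) ℂ),
      (∀ i j, g i j ∈ Level S l) ∧ f = ∑ i, C (c i) * (∏ j, g i j) ^ e}

/-- The condition on the exponents; `p` is the product of the product fan-ins of the levels
above. -/
def Large : ℕ → List (ℕ × ℕ × ℕ) → Prop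
  | _, [] => True
  | p, (k, q, e) :: l => (2 * k ^ p - 1) ^ 2 ≤ e ∧ Large (p * q) l

/-- The product of all product fan-ins. -/
def fanIn : List (ℕ × ℕ × ℕ) → ℕ
  | [] => 1
  | (_, q, _) :: l => q * fanIn l

/-- The explicit set of the points `(p_0 ^ u, p_1 ^ u, …)` for `u ≤ N`, interpolated by polynomials
of degree `N` in `u` for `N < u ≤ N d`; the `p_i` are the primes. -/
noncomputable def curve (n N d : ℕ) : Finset (Fin n → ℤ) :=
  (Finset.range (N * d + 1)).image fun u => fun i : Fin n =>
    (power N (Nat.nth Nat.Prime i) u : ℤ)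

theorem level_eq (S : Set (MvPolynomial (Fin n) ℂ)) (l : List (ℕ × ℕ × ℕ)) :
    Level S l = TH710.NP.Level ℂ S l := by
  induction l with
  | nil => rfl
  | cons x l ih =>
    obtain ⟨k, q, e⟩ := x
    simp only [Level, TH710.NP.Level, ih, MvPolynomial.smul_eq_C_mul]

theorem large_iff (l : List (ℕ × ℕ × ℕ)) : ∀ p, Large p l ↔ TH710.NP.Good p l := by
  induction l with
  | nil => exact fun _ => Iff.rfl
  | cons x l ih =>
    obtain ⟨k, q, e⟩ := x
    intro p
    simp only [Large, TH710.NP.Good, ih]

theorem fanIn_eq (l : List (ℕ × ℕ × ℕ)) : fanIn l = TH710.NP.fan l := by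
  induction l with
  | nil => rfl
  | cons x l ih =>
    obtain ⟨k, q, e⟩ := x
    simp only [fanIn, TH710.NP.fan, ih]

theorem card_support_mul (f g : MvPolynomial (Fin n) ℂ) :
    (f * g).support.card ≤ f.support.card * g.support.card := by
  classical
  exact (Finset.card_le_card (MvPolynomial.support_mul f g)).trans (Finset.card_add_le)

theorem card_support_prod {s p : ℕ} (f : Fin p → MvPolynomial (Fin n) ℂ)
    (hf : ∀ i, (f i).support.card ≤ s) : (∏ i, f i).support.card ≤ s ^ p := by
  classical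
  induction p with
  | zero =>
    rw [Finset.univ_eq_empty, Finset.prod_empty, pow_zero]
    have : (1 : MvPolynomial (Fin n) ℂ) = monomial 0 1 := rfl
    rw [this]
    exact (Finset.card_le_card support_monomial_subset).trans (by simp)
  | succ p ih =>
    rw [Fin.prod_univ_castSucc, pow_succ]
    exact (card_support_mul _ _).trans (Nat.mul_le_mul (ih _ fun i => hf _) (hf _))

theorem evG_zero (β : Fin n → Polynomial ℂ) (f : MvPolynomial (Fin n) ℂ) :
    evG ℂ β 0 f = C (aeval β f) := by
  have h : (evG ℂ β 0 : MvPolynomial (Fin n) ℂ →ₐ[ℂ] MvPolynomial (Fin 0 ⊕ Fin 0) (Polynomial ℂ)) =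
      (IsScalarTower.toAlgHom ℂ (Polynomial ℂ)
        (MvPolynomial (Fin 0 ⊕ Fin 0) (Polynomial ℂ))).comp (aeval β) := by
    apply MvPolynomial.algHom_ext
    intro i
    simp [evG, Pool.Agent.H626R2.Loc.genG, MvPolynomial.algebraMap_eq]
  rw [h]
  rfl

theorem inj2_sparse {s P : ℕ} (hs : 1 ≤ s) {q : ℕ} (hq : q ≤ P) :
    TH710.NP.Inj2 (K := ℂ) (evG ℂ (base ℂ n (2 * s ^ P)) 0)
      (TH710.NP.Prods q {f : MvPolynomial (Fin n) ℂ | f.support.card ≤ s}) := by
  classical
  rintro _ ⟨f, hf, rfl⟩ _ ⟨g, hg, rfl⟩ a b hz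
  by_contra hne
  have h1 : (a • ∏ i, f i + b • ∏ i, g i).support.card ≤ 2 * s ^ P := by
    refine (Finset.card_le_card support_add).trans ((Finset.card_union_le _ _).trans ?_)
    have h2 : s ^ q ≤ s ^ P := Nat.pow_le_pow_right hs hq
    have h3 := (Finset.card_le_card (support_smul (a := a) (f := ∏ i, f i))).trans
      ((card_support_prod f hf).trans h2)
    have h4 := (Finset.card_le_card (support_smul (a := b) (f := ∏ i, g i))).trans
      ((card_support_prod g hg).trans h2)
    omega
  have h2 := Pool.Agent.H530R2.base_ne hne h1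
  rw [evG_zero] at hz
  exact h2 (C_injective _ _ (by rw [hz, C_0]))

theorem inj2_products {w s D t k m q : ℕ} (hm : ∀ f : MvPolynomial (Fin n) ℂ, Sums w s D t 2 f →
    f ≠ 0 → evG ℂ (base ℂ n ((s + 2) ^ k)) (m * (t + 1)) f ≠ 0) :
    TH710.NP.Inj2 (K := ℂ) (evG ℂ (base ℂ n ((s + 2) ^ k)) (m * (t + 1)))
      (TH710.NP.Prods q {f : MvPolynomial (Fin n) ℂ |
        ∃ T : Multiset (MvPolynomial (Fin n) ℂ), (∀ g ∈ T, Composite w s D t g) ∧ f = T.prod}) := by
  classical
  rintro _ ⟨f, hf, rfl⟩ _ ⟨g, hg, rfl⟩ a b hz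
  by_contra hne
  refine hm _ ?_ hne hz
  choose Tf hTf hf' using hf
  choose Tg hTg hg' using hg
  have e1 : ∀ T : Fin q → Multiset (MvPolynomial (Fin n) ℂ),
      (∑ i, T i).prod = ∏ i, (T i).prod := fun T => Multiset.prod_sum _ _
  refine ⟨2, ![∑ i, Tf i, ∑ i, Tg i], ?_, ?_, ?_⟩
  · intro i h hh
    fin_cases i
    · simp only [Multiset.mem_sum, Finset.mem_univ, true_and, Fin.zero_eta, Matrix.cons_val_zero]
        at hh
      obtain ⟨j, hj⟩ := hh
      exact hTf j h hj
    · simp only [Multiset.mem_sum, Finset.mem_univ, true_and, Fin.mk_one, Matrix.cons_val_one,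
        Matrix.cons_val_fin_one] at hh
      obtain ⟨j, hj⟩ := hh
      exact hTg j h hj
  · intro u hu
    have h1 : Function.Injective u := by
      intro a b hab
      exact hu.injective (by simp only [hab])
    have h2 := Fintype.card_le_of_injective u h1
    rw [Fintype.card_fin, Fintype.card_fin] at h2
    omega
  · have h0 : ∏ i, f i = (![∑ i, Tf i, ∑ i, Tg i] 0).prod := by
      simp only [Matrix.cons_val_zero, e1]
      exact Finset.prod_congr rfl fun i _ => hf' i
    have h1 : ∏ i, g i = (![∑ i, Tf i, ∑ i, Tg i] 1).prod := by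
      simp only [Matrix.cons_val_one, Matrix.cons_val_fin_one, e1]
      exact Finset.prod_congr rfl fun i _ => hg' i
    rw [h0, h1]
    have hmem : ∀ j : Fin 2, (![∑ i, Tf i, ∑ i, Tg i] j).prod ∈
        Algebra.adjoin ℂ (Set.range fun j : Fin 2 => (![∑ i, Tf i, ∑ i, Tg i] j).prod) :=
      fun j => Algebra.subset_adjoin (Set.mem_range_self j)
    exact Subalgebra.add_mem _ (Subalgebra.smul_mem _ (hmem 0) a)
      (Subalgebra.smul_mem _ (hmem 1) b)

/-- the members of a level are not killed -/
theorem level_ne {T N : ℕ} {S : Set (MvPolynomial (Fin n) ℂ)} {l : List (ℕ × ℕ × ℕ)}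
    (hl : Large 1 l) (h : TH710.NP.Inj2 (K := ℂ) (evG ℂ (base ℂ n N) T)
      (TH710.NP.Prods (fanIn l) S)) {f : MvPolynomial (Fin n) ℂ} (hf : f ∈ Level S l)
    (h0 : f ≠ 0) : evG ℂ (base ℂ n N) T f ≠ 0 := by
  rw [fanIn_eq] at h
  rw [level_eq] at hf
  exact TH710.NP.lift_ne (TH710.NP.powIndep_mvpoly ℂ (Fin T ⊕ Fin T)) ((large_iff l 1).1 hl) h hf h0

theorem dvd_ne {T N : ℕ} {F : Multiset (MvPolynomial (Fin n) ℂ)}
    (hF : ∀ g ∈ F, evG ℂ (base ℂ n N) T g ≠ 0) {f : MvPolynomial (Fin n) ℂ} (hdvd : f ∣ F.prod) :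
    evG ℂ (base ℂ n N) T f ≠ 0 := by
  intro hz
  obtain ⟨g, hg⟩ := hdvd
  have h2 : evG ℂ (base ℂ n N) T F.prod = 0 := by rw [hg, map_mul, hz, zero_mul]
  rw [map_multiset_prod, Multiset.prod_eq_zero_iff] at h2
  obtain ⟨j, hj, hj0⟩ := Multiset.mem_map.1 h2
  exact hF j hj hj0

/-- **Nested sums of high powers.**
(1) A substitution which kills no nonzero combination of two members of `S` kills no nonzero
polynomial computed by a circuit of any depth with leaves in `S`, product fan-ins one and exponents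
at least `(2 k - 1) ^ 2`.
(2) The explicit set `curve n (2 s ^ P) d` of at most `2 s ^ P d + 1` points hits all nonzero
polynomials of degree at most `d` that divide a product of nonzero polynomials computed by circuits
whose leaves have at most `s` monomials.
(3) For leaves that are products of polynomials in `w` formulas, the explicit set `points` has
polynomial size.
(4) In the case of product fan-in one the condition on the exponents is `e ≥ (2 k - 1) ^ 2`, and
`P = 1`. -/
theorem result :
    (∀ (n : ℕ) (τ : Type) (_ : Finite τ)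
      (G : MvPolynomial (Fin n) ℂ →ₐ[ℂ] MvPolynomial τ ℂ) (S : Set (MvPolynomial (Fin n) ℂ)),
      (∀ f ∈ S, ∀ g ∈ S, ∀ a b : ℂ, C a * f + C b * g ≠ 0 → G (C a * f + C b * g) ≠ 0) →
      ∀ l : List (ℕ × ℕ × ℕ), (∀ x ∈ l, x.2.1 = 1 ∧ (2 * x.1 - 1) ^ 2 ≤ x.2.2) →
        ∀ f ∈ Level S l, f ≠ 0 → G f ≠ 0) ∧
    (∀ n s P d : ℕ, 1 ≤ s →
      (curve n (2 * s ^ P) d).card ≤ 2 * s ^ P * d + 1 ∧
      (∀ p ∈ curve n (2 * s ^ P) d, ∀ i, |p i| ≤ ((2 ^ (n * (2 * s ^ P) * d) : ℕ) : ℤ)) ∧
      ∀ (F : Multiset (MvPolynomial (Fin n) ℂ)) (f : MvPolynomial (Fin n) ℂ),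
        (∀ g ∈ F, g ≠ 0 ∧ ∃ l, Large 1 l ∧ fanIn l ≤ P ∧
          g ∈ Level {h | h.support.card ≤ s} l) →
        f ∣ F.prod → f.totalDegree ≤ d →
        ∃ p ∈ curve n (2 * s ^ P) d, eval (fun i => (p i : ℂ)) f ≠ 0) ∧
    (∀ w D : ℕ, ∃ k m : ℕ, ∀ n d s t : ℕ,
      (points n (m * (t + 1)) ((s + 2) ^ k) d).card ≤
        ((s + 2) ^ k * d + 1) * ((d + 1) * (n * d + 1)) ^ (m * (t + 1)) ∧
      (∀ p ∈ points n (m * (t + 1)) ((s + 2) ^ k) d, ∀ i, |p i| ≤
        ((2 ^ (n * (s + 2) ^ k * d) + m * (t + 1) * d * (n * d + n) ^ (n - 1) : ℕ) : ℤ)) ∧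
      ∀ (F : Multiset (MvPolynomial (Fin n) ℂ)) (f : MvPolynomial (Fin n) ℂ),
        (∀ g ∈ F, g ≠ 0 ∧ ∃ l, Large 1 l ∧
          g ∈ Level {h | ∃ T : Multiset (MvPolynomial (Fin n) ℂ),
            (∀ g ∈ T, Composite w s D t g) ∧ h = T.prod} l) →
        f ∣ F.prod → f.totalDegree ≤ d →
        ∃ p ∈ points n (m * (t + 1)) ((s + 2) ^ k) d, eval (fun i => (p i : ℂ)) f ≠ 0) ∧
    ∀ l : List (ℕ × ℕ × ℕ), (∀ x ∈ l, x.2.1 = 1) →
      fanIn l = 1 ∧ (Large 1 l ↔ ∀ x ∈ l, (2 * x.1 - 1) ^ 2 ≤ x.2.2) := by
  have h4 : ∀ l : List (ℕ × ℕ × ℕ), (∀ x ∈ l, x.2.1 = 1) →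
      fanIn l = 1 ∧ (Large 1 l ↔ ∀ x ∈ l, (2 * x.1 - 1) ^ 2 ≤ x.2.2) := by
    intro l
    induction l with
    | nil => intro _; simp [fanIn, Large]
    | cons x l ih =>
      obtain ⟨k, q, e⟩ := x
      intro h
      have hq : q = 1 := h _ (List.mem_cons_self ..)
      subst hq
      obtain ⟨h1, h2⟩ := ih fun x hx => h x (List.mem_cons_of_mem _ hx)
      simp only [fanIn, Large, h1, mul_one, pow_one, h2, List.mem_cons, forall_eq_or_imp, true_and]
  refine ⟨?_, ?_, ?_, h4⟩
  · intro n τ _ G S hG l hl f hf h0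
    have hL := (h4 l fun x hx => (hl x hx).1)
    have hlarge := hL.2.2 fun x hx => (hl x hx).2
    rw [level_eq] at hf
    refine TH710.NP.lift_ne (TH710.NP.powIndep_mv ℂ τ) ((large_iff l 1).1 hlarge) ?_ hf h0
    rw [← fanIn_eq, hL.1]
    rintro _ ⟨f, hf, rfl⟩ _ ⟨g, hg, rfl⟩ a b hz
    rw [Fin.prod_univ_one, Fin.prod_univ_one] at hz ⊢
    by_contra hne
    rw [MvPolynomial.smul_eq_C_mul, MvPolynomial.smul_eq_C_mul] at hz hne
    exact hG _ (hf 0) _ (hg 0) a b hne hz
  · intro n s P d hs
    have hcurve : curve n (2 * s ^ P) d ⊆ points n 0 (2 * s ^ P) d := by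
      intro p hp
      obtain ⟨u, hu, rfl⟩ := Finset.mem_image.1 hp
      unfold points
      rw [Finset.mem_image]
      refine ⟨(u, 0, 0), ?_, ?_⟩
      · rw [Finset.mem_product, Finset.mem_product]
        exact ⟨hu, Fintype.mem_piFinset.2 fun l => l.elim0, Fintype.mem_piFinset.2 fun l => l.elim0⟩
      · funext i
        simp [point]
    refine ⟨?_, ?_, ?_⟩
    · unfold curve
      refine Finset.card_image_le.trans ?_
      rw [Finset.card_range]
    · intro p hp i
      have := Pool.Agent.H626R2.Loc.pointsE_bound n 0 (2 * s ^ P) d p (hcurve hp) i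
      simpa using this
    · intro F f hF hdvd hd
      have hne : evG ℂ (base ℂ n (2 * s ^ P)) 0 f ≠ 0 := by
        refine dvd_ne (fun g hg => ?_) hdvd
        obtain ⟨hg0, l, hl, hlP, hgl⟩ := hF g hg
        exact level_ne hl (inj2_sparse hs hlP) hgl hg0
      obtain ⟨p, hp, hpf⟩ := SumsOfSparseFormulas.exists_point hne hd
      refine ⟨p, ?_, hpf⟩
      unfold points at hp
      obtain ⟨⟨u, y, z⟩, huyz, rfl⟩ := Finset.mem_image.1 hp
      unfold curve
      rw [Finset.mem_image]
      refine ⟨u, (Finset.mem_product.1 huyz).1, ?_⟩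
      funext i
      simp [point]
  · intro w D
    obtain ⟨k, m, hm⟩ := SumsOfSparseFormulas.sums_hit w D 2
    refine ⟨k, m, fun n d s t => ⟨Pool.Agent.H626R2.Loc.pointsE_card n _ ((s + 2) ^ k) d,
      fun p hp i => Pool.Agent.H626R2.Loc.pointsE_bound n _ ((s + 2) ^ k) d p hp i, ?_⟩⟩
    intro F f hF hdvd hd
    refine SumsOfSparseFormulas.exists_point (dvd_ne (fun g hg => ?_) hdvd) hd
    obtain ⟨hg0, l, hl, hgl⟩ := hF g hg
    exact level_ne hl (inj2_products (hm n s t)) hgl hg0

end Pool.Agent.Results.MP_c2aa42_lc.NestedPowers
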