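import Mathlib
import Pool.Agent.TH189.Pf3
import Pool.Agent.TH189.Pf4

/-!
# Polynomials of huge degree which solve Pfaffian systems of small rank and degree

We consider polynomials `f = ∑_{a < r} λ_a y_a` in `n` variables, where `y_1, …, y_r` are
polynomials of arbitrary degree which solve an (unknown) Pfaffian system
`μ ∂y_a/∂x_i = ∑_b c_{iab} y_b`.  Here `μ ≠ 0` is a polynomial of degree at most `d + 1`, the
`c_{iab}` have degree at most `d`, and the `λ_a` have degree at most `δ`.

Examples are the sums `∑_{a < r} λ_a ∏_j g_j ^ e_{aj}` with `∑_j deg g_j ≤ d + 1` and arbitrary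
exponents, and the values of the classical orthogonal polynomials of arbitrary degree at a
polynomial of small degree (with `r = 2`).

Put `s = (r - 1) + max (r δ + d r (r - 1) / 2) (d + 1)`.  This number does not depend on `n` and on
the degrees of the `y_a`.  We show that the explicit set of integer points with `s` seeds hits all
factors of products of nonzero polynomials `f` as above.

The proof uses the chain of primes `I_0 ⊇ I_1 ⊇ …` given by the polynomials which vanish on the
generators, with `∂ I_{j+1} ⊆ I_j`, and for which nonzero polynomials of degree at most `j` are not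
in `I_j`.  If `f ∈ I_s`, then the covariant derivatives of the row `λ` span, after `t ≤ r` steps, a
stable subspace of `F(x) ^ r`, and one gets `t` independent rows `L_j` of small degree with
`L_j y ∈ I_{s - j}`.  A minor of these rows is nonzero and of small degree, so it is invertible
modulo the prime, and by Cramer's rule `w y` is in the prime for *all* polynomial rows `w` in the
stable subspace.  All derivatives of `w y` are, up to powers of `μ`, again of this form, so they
are in the prime, which forces `w y = 0`.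
-/

set_option autoImplicit false

namespace Pool.Agent.Results.MP_c2aa42_lc.PfaffianSystems

open MvPolynomial

/-- `f = ∑ λ_a y_a`, where `y` is a polynomial solution, of arbitrary degree, of the Pfaffian system
`μ ∂y/∂x_i = c_i y` of rank `r`; the polynomial `μ` is not zero and has degree at most `d + 1`, the
entries of the matrices `c_i` have degree at most `d`, and the `λ_a` have degree at most `δ`. -/
def IsPfaffian {n : ℕ} (r d δ : ℕ) (f : MvPolynomial (Fin n) ℂ) : Prop :=
  ∃ (μ : MvPolynomial (Fin n) ℂ) (c : Fin n → Matrix (Fin r) (Fin r) (MvPolynomial (Fin n) ℂ))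
    (y lam : Fin r → MvPolynomial (Fin n) ℂ),
    μ ≠ 0 ∧ μ.totalDegree ≤ d + 1 ∧ (∀ i a b, (c i a b).totalDegree ≤ d) ∧
    (∀ i a, μ * pderiv i (y a) = ∑ b, c i a b * y b) ∧ (∀ a, (lam a).totalDegree ≤ δ) ∧
    f = ∑ a, lam a * y a

/-- `f` divides a product of nonzero polynomials of the above kind (with different systems). -/
def IsFactor {n : ℕ} (r d δ : ℕ) (f : MvPolynomial (Fin n) ℂ) : Prop :=
  ∃ l : List (MvPolynomial (Fin n) ℂ), (∀ h ∈ l, h ≠ 0 ∧ IsPfaffian r d δ h) ∧ f ∣ l.prod

/-- The number of seeds. -/
def seeds (r d δ : ℕ) : ℕ := (r - 1) + max (r * δ + d * (r * (r - 1) / 2)) (d + 1)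

/-- The integer point with coordinates `∑ l, y_l ∏_{k ≠ i} (z_l - k)`, `i = 0, …, n - 1`. -/
def point (n t : ℕ) (y z : Fin t → ℕ) : Fin n → ℤ :=
  fun i => ∑ l : Fin t, (y l : ℤ) * ∏ k ∈ Finset.univ.erase i, ((z l : ℤ) - (k.val : ℤ))

/-- The points with `t` seeds `(y_l, z_l)`, where `0 ≤ y_l ≤ D` and `0 ≤ z_l ≤ n D`. -/
def points (n t D : ℕ) : Finset (Fin n → ℤ) :=
  ((Fintype.piFinset fun _ : Fin t => Finset.range (D + 1)) ×ˢ
    (Fintype.piFinset fun _ : Fin t => Finset.range (n * D + 1))).image
    fun yz => point n t yz.1 yz.2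

theorem points_eq (n t D : ℕ) : points n t D = H530R2.hitSet n t D := rfl

/-- An example: sums of `r` products of arbitrary powers of polynomials of small degree. -/
theorem powers {n r d δ m : ℕ} (g : Fin m → MvPolynomial (Fin n) ℂ) (e : Fin r → Fin m → ℕ)
    (lam : Fin r → MvPolynomial (Fin n) ℂ) (hg : ∀ j, g j ≠ 0)
    (hd : ∑ j, (g j).totalDegree ≤ d + 1) (hlam : ∀ a, (lam a).totalDegree ≤ δ) :
    IsPfaffian r d δ (∑ a, lam a * ∏ j, g j ^ e a j) := by
  refine ⟨∏ j, g j, fun i => Matrix.diagonal fun a => TH189.Pf.ld g (e a) i,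
    fun a => ∏ j, g j ^ e a j, lam, ?_, ?_, ?_, ?_, hlam, rfl⟩
  · exact Finset.prod_ne_zero_iff.2 fun j _ => hg j
  · exact (totalDegree_finsetProd _ _).trans hd
  · intro i a b
    show (Matrix.diagonal (fun a => TH189.Pf.ld g (e a) i) a b).totalDegree ≤ d
    rw [Matrix.diagonal_apply]
    split_ifs
    · exact TH189.Pf.ld_deg g (e a) i hd
    · rw [totalDegree_zero]; omega
  · intro i a
    show (∏ j, g j) * pderiv i (∏ j, g j ^ e a j) =
      ∑ b, Matrix.diagonal (fun a => TH189.Pf.ld g (e a) i) a b * ∏ j, g j ^ e b j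
    rw [TH189.Pf.ld_eq, Finset.sum_eq_single a]
    · rw [Matrix.diagonal_apply_eq]
    · intro b _ hb
      rw [Matrix.diagonal_apply_ne _ (Ne.symm hb), zero_mul]
    · intro h
      exact absurd (Finset.mem_univ a) h

/-- **Blackbox identity testing for solutions of Pfaffian systems of small rank and degree.**
Fix `r, d, δ`, put `s = (r - 1) + max (r δ + d r (r - 1) / 2) (d + 1)`, and let `n` and `D` be
arbitrary.  The explicit set `points n s D` has at most `((D + 1) (n D + 1)) ^ s` elements, with
bounded coordinates, and it contains a non-zero of every polynomial of degree at most `D` in `n`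
variables which divides a product of nonzero polynomials `∑_{a < r} λ_a y_a`, where `y` solves a
Pfaffian system `μ ∂y/∂x_i = c_i y` with `μ ≠ 0`, `deg μ ≤ d + 1`, `deg c_i ≤ d`,
`deg λ_a ≤ δ`; the degrees of the `y_a` are arbitrary. -/
theorem result (r d δ n D : ℕ) :
    (points n (seeds r d δ) D).card ≤ ((D + 1) * (n * D + 1)) ^ seeds r d δ ∧
    (∀ p ∈ points n (seeds r d δ) D, ∀ i,
      |p i| ≤ (seeds r d δ * D * (n * D + n) ^ (n - 1) : ℕ)) ∧
    (∀ f : MvPolynomial (Fin n) ℂ, f.totalDegree ≤ D → IsFactor r d δ f →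
      ∃ p ∈ points n (seeds r d δ) D, eval (fun i => (p i : ℂ)) f ≠ 0) := by
  refine ⟨?_, ?_, ?_⟩
  · rw [points_eq]
    exact H530R2.hitSet_card _ _ _
  · intro p hp i
    rw [points_eq] at hp
    exact H530R2.hitSet_bound _ _ _ p hp i
  · rintro f hD ⟨l, hl, hdvd⟩
    refine H530R2.exists_hit n (seeds r d δ) D f hD fun hf => ?_
    have hprime := (W943.genChain (fun i : Fin n => ((i.val : ℕ) : ℂ))
      (H530R2.nodes_injective n)).prime (seeds r d δ)
    have hprod : l.prod ∈ (W943.genChain (fun i : Fin n => ((i.val : ℕ) : ℂ))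
        (H530R2.nodes_injective n)).I (seeds r d δ) := by
      obtain ⟨q, hq⟩ := hdvd
      rw [hq]
      exact Ideal.mul_mem_right _ _ hf
    have key : ∀ l : List (MvPolynomial (Fin n) ℂ), (∀ h ∈ l, h ≠ 0 ∧ IsPfaffian r d δ h) →
        l.prod ∉ (W943.genChain (fun i : Fin n => ((i.val : ℕ) : ℂ))
          (H530R2.nodes_injective n)).I (seeds r d δ) := by
      intro l
      induction l with
      | nil =>
        intro _ h1
        rw [List.prod_nil] at h1
        exact hprime.ne_top ((Ideal.eq_top_iff_one _).2 h1)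
      | cons h l ih =>
        intro hl h1
        rw [List.prod_cons] at h1
        rcases hprime.mem_or_mem h1 with h2 | h2
        · obtain ⟨h0, μ, c, y, lam, hμ0, hμ, hc, hy, hlam, hf⟩ := hl h (by simp)
          rw [hf] at h0 h2
          exact TH189.Pf.main _ d δ μ c y lam hμ0 hμ hc hy hlam h0 h2
        · exact ih (fun x hx => hl x (by simp [hx])) h2
    exact key l hl hprod

end Pool.Agent.Results.MP_c2aa42_lc.PfaffianSystems
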