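import Pool.Agent.TH671.US.E

/-!
# Explicit hitting sets for polynomials without zeros on an unknown product of sectors

Let `S(θ, h) ⊆ ℂ` be the open sector of half-aperture `h` around the direction `exp (i θ)`.  We
consider the complex polynomials in `n` variables without zeros in the product of the translated
sectors `a_i + S(θ_i, h)`, where the vertices `a_i` and the directions `θ_i` are UNKNOWN (for
`h = π / 2`: unknown open half-planes, anywhere in `ℂ`); more generally we allow that this holds only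
after at most `r` unknown variables have been replaced by suitable unknown constants (`Cls h r`).
Let `k > 0`, `(k + 1) h > π` and let `p ≥ n` be a prime.  The points

  `x_i = ∏_{j < k} t_j ^ (i ^ j mod p) + ∑_{l < r} y_l ∏_{m ≠ i} (z_l - m)`,
  `t_j, y_l, z_l ∈ {0, …, (p - 1) D}`,

form a hitting set for all polynomials of degree at most `D` which divide a product of members of
the class (with different unknown sectors and exceptional variables for different members).

The proof.  (1) For a weight with positive entries the leading form of a polynomial without zeros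
on a product of translated sectors has no zeros on the product of the sectors; the same holds then
for all initial forms of this leading form.  An elementary form of Hurwitz's theorem is enough for
this (`hurwitz_shift`).  (2) Hence an edge of the Newton polytope of the leading form with primitive
direction `e` satisfies `h ∑ |e_i| ≤ π`: otherwise the values of `x ^ e` on the product of sectors are
all nonzero complex numbers (`edge_short`).  (3) So no such edge is contracted by the linear map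
`α ↦ (∑ i, (i ^ j mod p) α_i)_j` to `ℤ ^ k`, by the Vandermonde determinant modulo `p`; therefore a
unique exponent is mapped to the longest vector of the image (`subst_ne_zero`).  (4) The generator
of Shpilka and Volkovich is added for the exceptional variables (`gen_ne_zero`).
-/

set_option autoImplicit false

namespace Pool.Agent.Results.MP_c2aa42_lc.UnknownSectors

open Finset MvPolynomial Matrix

/-- The open sector of half-aperture `h` around the direction `exp (i θ)`. -/
def sector (θ h : ℝ) : Set ℂ :=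
  {z | ∃ r s : ℝ, 0 < r ∧ |s| < h ∧ z = r * Complex.exp (((θ + s : ℝ) : ℂ) * Complex.I)}

/-- There are a set `E` of at most `r` variables, complex numbers `a_i` and directions `θ_i` such that
`f(x) ≠ 0` whenever `x_i = a_i` for `i ∈ E` and, for `i ∉ E`, `x_i` is in the sector with vertex `a_i`
and half-aperture `h` around the direction `exp (i θ_i)`. -/
def Cls {n : ℕ} (h : ℝ) (r : ℕ) (f : MvPolynomial (Fin n) ℂ) : Prop :=
  ∃ (E : Finset (Fin n)) (a : Fin n → ℂ) (θ : Fin n → ℝ), E.card ≤ r ∧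
    ∀ x : Fin n → ℂ, (∀ i ∈ E, x i = a i) → (∀ i ∉ E, x i - a i ∈ sector (θ i) h) → eval x f ≠ 0

/-- The coordinate `i` of the point with the parameters `u = (t, y, z)`. -/
def point (n k r p : ℕ) (u : Fin k ⊕ (Fin r ⊕ Fin r) → ℕ) (i : Fin n) : ℤ :=
  ∏ j : Fin k, (u (Sum.inl j) : ℤ) ^ ((i : ℕ) ^ (j : ℕ) % p) +
    ∑ l : Fin r, (u (Sum.inr (Sum.inl l)) : ℤ) *
      ∏ m ∈ univ.erase i, ((u (Sum.inr (Sum.inr l)) : ℤ) - ((m : Fin n) : ℕ))

/-- The explicit points: all parameters are in `{0, …, B}`. -/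
def points (n k r p B : ℕ) : Finset (Fin n → ℤ) :=
  (Fintype.piFinset fun _ : Fin k ⊕ (Fin r ⊕ Fin r) => range (B + 1)).image (point n k r p)

theorem abs_point_le (n k r p B : ℕ) (u : Fin k ⊕ (Fin r ⊕ Fin r) → ℕ) (hu : ∀ a, u a ≤ B)
    (hp : 0 < p) (i : Fin n) :
    |point n k r p u i| ≤ (((B + 1) ^ (k * (p - 1)) + r * (B + n) ^ n : ℕ) : ℤ) := by
  unfold point
  refine (abs_add_le _ _).trans ?_
  push_cast
  refine add_le_add ?_ ?_
  · rw [Finset.abs_prod]
    calc ∏ j : Fin k, |(u (Sum.inl j) : ℤ) ^ ((i : ℕ) ^ (j : ℕ) % p)|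
        ≤ ∏ _j : Fin k, ((B : ℤ) + 1) ^ (p - 1) := by
          refine Finset.prod_le_prod (fun _ _ => abs_nonneg _) fun j _ => ?_
          rw [abs_pow, Nat.abs_cast]
          have h1 : (i : ℕ) ^ (j : ℕ) % p ≤ p - 1 := by
            have := Nat.mod_lt ((i : ℕ) ^ (j : ℕ)) hp
            omega
          have h2 : (u (Sum.inl j) : ℤ) ≤ (B : ℤ) + 1 := by
            have := hu (Sum.inl j)
            omega
          calc (u (Sum.inl j) : ℤ) ^ ((i : ℕ) ^ (j : ℕ) % p)
              ≤ ((B : ℤ) + 1) ^ ((i : ℕ) ^ (j : ℕ) % p) := pow_le_pow_left₀ (by positivity) h2 _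
            _ ≤ ((B : ℤ) + 1) ^ (p - 1) := pow_le_pow_right₀ (by omega) h1
      _ = ((B : ℤ) + 1) ^ (k * (p - 1)) := by
          rw [Finset.prod_const, Finset.card_univ, Fintype.card_fin, ← pow_mul]
          congr 1
          ring
  · refine (Finset.abs_sum_le_sum_abs _ _).trans ?_
    have hn : 0 < n := i.pos
    calc ∑ l : Fin r, |(u (Sum.inr (Sum.inl l)) : ℤ) *
          ∏ m ∈ univ.erase i, ((u (Sum.inr (Sum.inr l)) : ℤ) - ((m : Fin n) : ℕ))|
        ≤ ∑ _l : Fin r, ((B : ℤ) + n) ^ n := by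
          refine Finset.sum_le_sum fun l _ => ?_
          rw [abs_mul, Nat.abs_cast, Finset.abs_prod]
          have h1 : (u (Sum.inr (Sum.inl l)) : ℤ) ≤ (B : ℤ) + n := by
            have := hu (Sum.inr (Sum.inl l))
            omega
          have h2 : ∏ m ∈ univ.erase i, |(u (Sum.inr (Sum.inr l)) : ℤ) - ((m : Fin n) : ℕ)| ≤
              ((B : ℤ) + n) ^ (n - 1) := by
            calc ∏ m ∈ univ.erase i, |(u (Sum.inr (Sum.inr l)) : ℤ) - ((m : Fin n) : ℕ)|
                ≤ ∏ _m ∈ univ.erase i, ((B : ℤ) + n) := by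
                  refine Finset.prod_le_prod (fun _ _ => abs_nonneg _) fun m _ => ?_
                  have h3 := hu (Sum.inr (Sum.inr l))
                  have h4 := m.2
                  rw [abs_le]
                  constructor <;> omega
              _ = ((B : ℤ) + n) ^ (n - 1) := by
                  rw [Finset.prod_const, Finset.card_erase_of_mem (Finset.mem_univ i),
                    Finset.card_univ, Fintype.card_fin]
          calc (u (Sum.inr (Sum.inl l)) : ℤ) *
                ∏ m ∈ univ.erase i, |(u (Sum.inr (Sum.inr l)) : ℤ) - ((m : Fin n) : ℕ)|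
              ≤ ((B : ℤ) + n) * ((B : ℤ) + n) ^ (n - 1) :=
                mul_le_mul h1 h2 (Finset.prod_nonneg fun _ _ => abs_nonneg _) (by positivity)
            _ = ((B : ℤ) + n) ^ n := by
                rw [← pow_succ']
                congr 1
                omega
      _ = (r : ℤ) * ((B : ℤ) + n) ^ n := by
          rw [Finset.sum_const, Finset.card_univ, Fintype.card_fin, nsmul_eq_mul]

/-- the quadratic form of a matrix -/
def qf {N : ℕ} (M : Matrix (Fin N) (Fin N) ℂ) (v : Fin N → ℂ) : ℂ := star v ⬝ᵥ (M *ᵥ v)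

theorem qf_smul {N : ℕ} (M : Matrix (Fin N) (Fin N) ℂ) (t : ℝ) (v : Fin N → ℂ) :
    qf M ((t : ℂ) • v) = ((t * t : ℝ) : ℂ) * qf M v := by
  unfold qf
  rw [star_smul, Matrix.mulVec_smul, smul_dotProduct, dotProduct_smul, smul_eq_mul, smul_eq_mul]
  have : star (t : ℂ) = t := Complex.conj_ofReal t
  rw [this]
  push_cast
  ring

theorem continuous_qf {N : ℕ} (M : Matrix (Fin N) (Fin N) ℂ) : Continuous (qf M) := by
  unfold qf
  exact (continuous_star).dotProduct (continuous_const.matrix_mulVec continuous_id)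

theorem exists_radius {N : ℕ} (F G : (Fin N → ℂ) → ℝ) (hF : Continuous F) (hG : Continuous G)
    (hF2 : ∀ (t : ℝ) v, F ((t : ℂ) • v) = t * t * F v)
    (hG2 : ∀ (t : ℝ) v, G ((t : ℂ) • v) = t * t * G v) (hpos : ∀ v, v ≠ 0 → 0 < F v) :
    ∃ R : ℝ, 0 < R ∧ ∀ v, v ≠ 0 → 0 < G v + R * F v := by
  rcases (Metric.sphere (0 : Fin N → ℂ) 1).eq_empty_or_nonempty with hE | hne
  · refine ⟨1, one_pos, fun v hv => ?_⟩
    exfalso
    have h1 : (((‖v‖⁻¹ : ℝ) : ℂ) • v) ∈ Metric.sphere (0 : Fin N → ℂ) 1 := by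
      rw [mem_sphere_zero_iff_norm, norm_smul, Complex.norm_real, norm_inv, norm_norm,
        inv_mul_cancel₀ (norm_ne_zero_iff.2 hv)]
    rw [hE] at h1
    exact h1
  · obtain ⟨u, hu, humin⟩ := (isCompact_sphere (0 : Fin N → ℂ) 1).exists_isMinOn hne hF.continuousOn
    obtain ⟨w, hw, hwmin⟩ := (isCompact_sphere (0 : Fin N → ℂ) 1).exists_isMinOn hne hG.continuousOn
    have hu0 : u ≠ 0 := by
      rintro rfl
      simp at hu
    have hFu := hpos u hu0
    refine ⟨(|G w| + 1) / F u, by positivity, fun v hv => ?_⟩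
    have hv0 : 0 < ‖v‖ := norm_pos_iff.2 hv
    set z : Fin N → ℂ := ((‖v‖⁻¹ : ℝ) : ℂ) • v with hz
    have hzs : z ∈ Metric.sphere (0 : Fin N → ℂ) 1 := by
      rw [hz, mem_sphere_zero_iff_norm, norm_smul, Complex.norm_real, norm_inv, norm_norm,
        inv_mul_cancel₀ hv0.ne']
    have hvz : v = ((‖v‖ : ℝ) : ℂ) • z := by
      rw [hz, smul_smul, ← Complex.ofReal_mul, mul_inv_cancel₀ hv0.ne', Complex.ofReal_one,
        one_smul]
    have h1 : F u ≤ F z := humin hzs
    have h2 : G w ≤ G z := hwmin hzs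
    have h3 : 0 < G z + (|G w| + 1) / F u * F z := by
      have h4 : |G w| + 1 ≤ (|G w| + 1) / F u * F z := by
        rw [div_mul_eq_mul_div, le_div_iff₀ hFu]
        exact mul_le_mul_of_nonneg_left h1 (by positivity)
      have h5 := neg_abs_le (G w)
      linarith
    rw [hvz, hF2, hG2]
    have h6 : ‖v‖ * ‖v‖ * G z + (|G w| + 1) / F u * (‖v‖ * ‖v‖ * F z) =
        ‖v‖ * ‖v‖ * (G z + (|G w| + 1) / F u * F z) := by ring
    rw [h6]
    positivity

theorem det_mem {n N r : ℕ} {h : ℝ} (A₀ : Matrix (Fin N) (Fin N) ℂ)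
    (A : Fin n → Matrix (Fin N) (Fin N) ℂ) (P Q : Matrix (Fin N) (Fin N) ℂ) (θ : Fin n → ℝ)
    (E : Finset (Fin n)) (hE : E.card ≤ r) (_hP : P.det ≠ 0) (hQ : Q.det ≠ 0) (hh : 0 < h)
    (hA : ∀ v : Fin N → ℂ, v ≠ 0 →
      (∀ i ∉ E, ∃ ρ σ : ℝ, 0 ≤ ρ ∧ |σ| ≤ Real.pi / 2 - h ∧
        star v ⬝ᵥ ((P * A i * Q) *ᵥ v) = ρ * Complex.exp (((σ - θ i : ℝ) : ℂ) * Complex.I)) ∧
      ∃ i ∉ E, star v ⬝ᵥ ((P * A i * Q) *ᵥ v) ≠ 0) :
    Cls h r (A₀.map (C : ℂ →+* MvPolynomial (Fin n) ℂ) + ∑ i, (X i : MvPolynomial (Fin n) ℂ) •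
      (A i).map (C : ℂ →+* MvPolynomial (Fin n) ℂ)).det := by
  classical
  -- the real parts
  have hre : ∀ v : Fin N → ℂ, v ≠ 0 → ∀ i ∉ E, ∀ (t s : ℝ), 0 < t → |s| < h →
      0 ≤ (((t : ℂ) * Complex.exp (((θ i + s : ℝ) : ℂ) * Complex.I)) * qf (P * A i * Q) v).re ∧
      (qf (P * A i * Q) v ≠ 0 → 0 <
        (((t : ℂ) * Complex.exp (((θ i + s : ℝ) : ℂ) * Complex.I)) * qf (P * A i * Q) v).re) := by
    intro v hv i hi t s ht hs
    obtain ⟨ρ, σ, hρ, hσ, e1⟩ := (hA v hv).1 i hi
    have e1' : qf (P * A i * Q) v = ρ * Complex.exp (((σ - θ i : ℝ) : ℂ) * Complex.I) := e1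
    have e3 : ((t : ℂ) * Complex.exp (((θ i + s : ℝ) : ℂ) * Complex.I)) * qf (P * A i * Q) v =
        ((t * ρ : ℝ) : ℂ) * Complex.exp (((s + σ : ℝ) : ℂ) * Complex.I) := by
      rw [e1']
      have h3 : Complex.exp (((s + σ : ℝ) : ℂ) * Complex.I) =
          Complex.exp (((θ i + s : ℝ) : ℂ) * Complex.I) *
            Complex.exp (((σ - θ i : ℝ) : ℂ) * Complex.I) := by
        rw [← Complex.exp_add]
        congr 1
        push_cast
        ring
      rw [h3]
      push_cast
      ring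
    have e4 : (((t : ℂ) * Complex.exp (((θ i + s : ℝ) : ℂ) * Complex.I)) *
        qf (P * A i * Q) v).re = t * ρ * Real.cos (s + σ) := by
      rw [e3, Complex.re_ofReal_mul, Complex.exp_ofReal_mul_I_re]
    have hcos : 0 < Real.cos (s + σ) := by
      have h4 : |s + σ| < Real.pi / 2 := (abs_add_le _ _).trans_lt (by linarith)
      exact Real.cos_pos_of_mem_Ioo ⟨(abs_lt.1 h4).1, (abs_lt.1 h4).2⟩
    rw [e4]
    refine ⟨by positivity, fun hne => ?_⟩
    have hρ' : 0 < ρ := by
      rcases hρ.lt_or_eq with h4 | h4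
      · exact h4
      · exfalso
        apply hne
        rw [e1', ← h4]
        simp
    positivity
  -- the vertices of the sectors
  let F : (Fin N → ℂ) → ℝ := fun v => ∑ i ∈ Eᶜ,
    ((((1 : ℝ) : ℂ) * Complex.exp (((θ i + 0 : ℝ) : ℂ) * Complex.I)) * qf (P * A i * Q) v).re
  let G : (Fin N → ℂ) → ℝ := fun v => (qf (P * A₀ * Q) v).re
  have hFc : Continuous F := continuous_finsetSum _ fun i _ =>
    Complex.continuous_re.comp (continuous_const.mul (continuous_qf _))
  have hGc : Continuous G := Complex.continuous_re.comp (continuous_qf _)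
  have hF2 : ∀ (t : ℝ) v, F ((t : ℂ) • v) = t * t * F v := by
    intro t v
    simp only [F]
    rw [Finset.mul_sum]
    refine Finset.sum_congr rfl fun i _ => ?_
    rw [qf_smul, ← Complex.re_ofReal_mul]
    congr 1
    ring
  have hG2 : ∀ (t : ℝ) v, G ((t : ℂ) • v) = t * t * G v := by
    intro t v
    simp only [G]
    rw [qf_smul, Complex.re_ofReal_mul]
  have hFpos : ∀ v, v ≠ 0 → 0 < F v := by
    intro v hv
    obtain ⟨i₀, hi₀, hne⟩ := (hA v hv).2
    exact Finset.sum_pos' (fun i hi => (hre v hv i (Finset.mem_compl.1 hi) 1 0 one_pos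
      (by simpa using hh)).1) ⟨i₀, Finset.mem_compl.2 hi₀,
        (hre v hv i₀ hi₀ 1 0 one_pos (by simpa using hh)).2 hne⟩
  obtain ⟨R, hR, hRpos⟩ := exists_radius F G hFc hGc hF2 hG2 hFpos
  let a : Fin n → ℂ := fun i => if i ∈ E then 0 else
    (R : ℂ) * (((1 : ℝ) : ℂ) * Complex.exp (((θ i + 0 : ℝ) : ℂ) * Complex.I))
  refine ⟨E, a, θ, hE, fun x hxE hx h0 => ?_⟩
  have hev : eval x (A₀.map (C : ℂ →+* MvPolynomial (Fin n) ℂ) +
      ∑ i, (X i : MvPolynomial (Fin n) ℂ) •
      (A i).map (C : ℂ →+* MvPolynomial (Fin n) ℂ)).det = (A₀ + ∑ i, x i • A i).det := by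
    rw [RingHom.map_det]
    congr 1
    ext a b
    simp only [RingHom.mapMatrix_apply, Matrix.map_apply, Matrix.sum_apply, Matrix.smul_apply,
      smul_eq_mul, map_sum, map_mul, eval_X, eval_C, Matrix.add_apply, map_add]
  rw [hev] at h0
  obtain ⟨w, hw, hw0⟩ := Matrix.exists_mulVec_eq_zero_iff.2 h0
  have hQu : IsUnit Q.det := isUnit_iff_ne_zero.2 hQ
  set v : Fin N → ℂ := Q⁻¹ *ᵥ w with hv
  have hQv : Q *ᵥ v = w := by
    rw [hv, Matrix.mulVec_mulVec, Matrix.mul_nonsing_inv _ hQu, Matrix.one_mulVec]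
  have hv0 : v ≠ 0 := by
    intro h1
    rw [h1, Matrix.mulVec_zero] at hQv
    exact hw hQv.symm
  have hsum : qf (P * A₀ * Q) v + ∑ i, x i * qf (P * A i * Q) v = 0 := by
    have h1 : star v ⬝ᵥ ((P * (A₀ + ∑ i, x i • A i) * Q) *ᵥ v) = 0 := by
      rw [← Matrix.mulVec_mulVec, hQv, ← Matrix.mulVec_mulVec, hw0, Matrix.mulVec_zero,
        dotProduct_zero]
    rw [← h1]
    simp only [Finset.mul_sum, Finset.sum_mul, Matrix.mul_smul, Matrix.smul_mul, Matrix.mul_add,
      Matrix.add_mul]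
    rw [Matrix.add_mulVec, dotProduct_add, Matrix.sum_mulVec, dotProduct_sum]
    unfold qf
    congr 1
    refine Finset.sum_congr rfl fun i _ => ?_
    rw [Matrix.smul_mulVec, dotProduct_smul, smul_eq_mul]
  have hsplit : ∑ i, x i * qf (P * A i * Q) v = ∑ i ∈ Eᶜ, (a i * qf (P * A i * Q) v +
      (x i - a i) * qf (P * A i * Q) v) := by
    have h1 : ∑ i ∈ Eᶜ, (a i * qf (P * A i * Q) v + (x i - a i) * qf (P * A i * Q) v) =
        ∑ i ∈ Eᶜ, x i * qf (P * A i * Q) v := Finset.sum_congr rfl fun i _ => by ring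
    rw [h1]
    symm
    refine Finset.sum_subset (Finset.subset_univ _) fun i _ hi => ?_
    have hiE : i ∈ E := by
      by_contra h2
      exact hi (Finset.mem_compl.2 h2)
    rw [hxE i hiE]
    simp [a, hiE]
  have h5 : 0 < (qf (P * A₀ * Q) v + ∑ i, x i * qf (P * A i * Q) v).re := by
    rw [hsplit, Finset.sum_add_distrib, Complex.add_re, Complex.add_re, Complex.re_sum,
      Complex.re_sum]
    have h6 : ∑ i ∈ Eᶜ, (a i * qf (P * A i * Q) v).re = R * F v := by
      simp only [F]
      rw [Finset.mul_sum]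
      refine Finset.sum_congr rfl fun i hi => ?_
      have hi' : i ∉ E := Finset.mem_compl.1 hi
      simp only [a, if_neg hi']
      rw [mul_assoc, Complex.re_ofReal_mul]
    have h7 : 0 ≤ ∑ i ∈ Eᶜ, ((x i - a i) * qf (P * A i * Q) v).re := by
      refine Finset.sum_nonneg fun i hi => ?_
      have hi' : i ∉ E := Finset.mem_compl.1 hi
      obtain ⟨t, s, ht, hs, e2⟩ := hx i hi'
      rw [e2]
      exact (hre v hv0 i hi' t s ht hs).1
    have h8 := hRpos v hv0
    rw [h6]
    have h9 : (qf (P * A₀ * Q) v).re = G v := rfl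
    rw [h9]
    linarith
  rw [hsum] at h5
  simp at h5

/-- **Explicit hitting sets for polynomials without zeros on an unknown product of sectors.**
Let `k > 0` and `(k + 1) h > π`.

(1) For every prime `p ≥ n` the explicit set of points has at most `((p - 1) D + 1) ^ (k + 2 r)`
elements, with coordinates of polynomial bit length, and it hits every polynomial of degree at most
`D` that divides a product of members of the class `Cls h r`.

(2) The class `Cls h r` contains the determinants `det (A₀ + ∑ x_i A_i)` for all matrices `A₀`, `A_i`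
of any size such that, for all but at most `r` indices `i`, the numerical values of `A_i`, in unknown
coordinates `P`, `Q`, lie in an unknown sector `|arg z + θ_i| ≤ π / 2 - h`, without common zero.  The
other matrices, among them `A₀`, are arbitrary. -/
theorem result (h : ℝ) (hh : 0 < h) (k : ℕ) (hk0 : 0 < k) (hk : Real.pi < (k + 1) * h) :
    (∀ n r p D : ℕ, p.Prime → n ≤ p →
      (points n k r p ((p - 1) * D)).card ≤ ((p - 1) * D + 1) ^ (k + 2 * r) ∧
      (∀ x ∈ points n k r p ((p - 1) * D), ∀ i, |x i| ≤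
        ((((p - 1) * D + 1) ^ (k * (p - 1)) + r * ((p - 1) * D + n) ^ n : ℕ) : ℤ)) ∧
      ∀ f g : MvPolynomial (Fin n) ℂ, f.totalDegree ≤ D →
        g ∈ Submonoid.closure {g : MvPolynomial (Fin n) ℂ | Cls h r g} → f ∣ g →
        ∃ x ∈ points n k r p ((p - 1) * D), eval (fun i => (x i : ℂ)) f ≠ 0) ∧
    ∀ (n N r : ℕ) (A₀ : Matrix (Fin N) (Fin N) ℂ) (A : Fin n → Matrix (Fin N) (Fin N) ℂ)
      (P Q : Matrix (Fin N) (Fin N) ℂ) (θ : Fin n → ℝ) (E : Finset (Fin n)),
      E.card ≤ r → P.det ≠ 0 → Q.det ≠ 0 →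
      (∀ v : Fin N → ℂ, v ≠ 0 →
        (∀ i ∉ E, ∃ ρ σ : ℝ, 0 ≤ ρ ∧ |σ| ≤ Real.pi / 2 - h ∧
          star v ⬝ᵥ ((P * A i * Q) *ᵥ v) = ρ * Complex.exp (((σ - θ i : ℝ) : ℂ) * Complex.I)) ∧
        ∃ i ∉ E, star v ⬝ᵥ ((P * A i * Q) *ᵥ v) ≠ 0) →
      Cls h r (A₀.map (C : ℂ →+* MvPolynomial (Fin n) ℂ) +
        ∑ i, (X i : MvPolynomial (Fin n) ℂ) •
          (A i).map (C : ℂ →+* MvPolynomial (Fin n) ℂ)).det := by
  classical
  refine ⟨fun n r p D hp hn => ⟨?_, ?_, ?_⟩, fun n N r A₀ A P Q θ E hE hP hQ hA =>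
    det_mem A₀ A P Q θ E hE hP hQ hh hA⟩
  · refine Finset.card_image_le.trans (le_of_eq ?_)
    rw [Fintype.card_piFinset]
    simp only [Finset.card_range, Finset.prod_const, Finset.card_univ, Fintype.card_sum,
      Fintype.card_fin]
    congr 1
    ring
  · intro x hx i
    obtain ⟨u, hu, rfl⟩ := Finset.mem_image.1 hx
    refine abs_point_le n k r p _ u (fun a => ?_) hp.pos i
    exact Nat.lt_succ_iff.1 (Finset.mem_range.1 (Fintype.mem_piFinset.1 hu a))
  · intro f g hf hg hfg
    have h1 : aeval (TH671.US.gen p : Fin n → MvPolynomial (TH671.US.Par k r) ℂ) g ≠ 0 := by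
      refine Submonoid.closure_induction (motive := fun q _ =>
        aeval (TH671.US.gen p : Fin n → MvPolynomial (TH671.US.Par k r) ℂ) q ≠ 0) ?_ ?_ ?_ hg
      · rintro q ⟨E, a, θ, hE, hq⟩
        exact TH671.US.gen_ne_zero hp hn hh hk0 hk E hE a q hq
      · simp
      · intro q q' _ _ hq hq'
        rw [map_mul]
        exact mul_ne_zero hq hq'
    have h2 : aeval (TH671.US.gen p : Fin n → MvPolynomial (TH671.US.Par k r) ℂ) f ≠ 0 := by
      obtain ⟨q, rfl⟩ := hfg
      rw [map_mul] at h1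
      exact left_ne_zero_of_mul h1
    obtain ⟨u, hu, hne⟩ := TH671.US.exists_point hp.two_le hn f hf h2
    exact ⟨point n k r p u, Finset.mem_image_of_mem _ (Fintype.mem_piFinset.2 fun a =>
      Finset.mem_range.2 (Nat.lt_succ_of_le (hu a))), hne⟩

end Pool.Agent.Results.MP_c2aa42_lc.UnknownSectors
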